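import Pool.Agent.H23.Ico

namespace Pool.Agent.Results.MP_325f40_co.Icosahedron

/-- The 2-distance graph: distinct vertices are adjacent iff their distance in `G` is exactly 2
(extended distance, infinite between different components). -/
def dist2 {V : Type} (G : SimpleGraph V) : SimpleGraph V where
  Adj u v := G.edist u v = 2
  symm := ⟨fun u v h => by rwa [SimpleGraph.edist_comm]⟩
  loopless := ⟨fun u h => by simp at h⟩

theorem result : ∃ (n k : ℕ) (G : SimpleGraph (Fin n)), 0 < n ∧ Odd k ∧
    (∀ v, (G.neighborSet v).ncard = k) ∧ Nonempty (dist2 G ≃g G) := by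
  refine ⟨12, 5, H23.Ico.G, by norm_num, by decide, fun v => ?_, ⟨⟨H23.Ico.e, ?_⟩⟩⟩
  · rw [← H23.Ico.reg v, ← SimpleGraph.card_neighborFinset_eq_degree, ← Set.ncard_coe_finset]
    simp
  · intro u v
    rw [H23.Ico.he, ← H23.Ico.dist_eq]
    change _ ↔ H23.Ico.G.edist u v = 2
    rw [SimpleGraph.dist]
    constructor
    · intro h
      exact (ENat.toNat_eq_iff (by norm_num)).1 h
    · intro h; rw [h]; rfl

end Pool.Agent.Results.MP_325f40_co.Icosahedron
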